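import Mathlib
import Pool.Agent.Q35.FC.Fano

/-!
The Fano scheme `F_10(D^4_{5,5})` of 10-planes on the variety of 5 × 5 matrices of rank at most
three is not connected.
-/

namespace Pool.Agent.Results.MP_d51aa1_ag.Disconnected

open Q35.FC

/-- Over every algebraically closed field `K` (of any characteristic) the Fano scheme
`F_10(D^4_{5,5})` (closed points, Zariski topology) is the disjoint union of two nonempty closed
(hence open and closed) subsets, so it is not connected. -/
theorem result (K : Type*) [Field K] [IsAlgClosed K] :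
    (∃ U V : Set (FanoD K 10 4 5 5), IsClosed U ∧ IsClosed V ∧ U.Nonempty ∧ V.Nonempty ∧
      Disjoint U V ∧ U ∪ V = Set.univ) ∧ ¬ ConnectedSpace (FanoD K 10 4 5 5) := by
  have : Infinite K := IsAlgClosed.instInfinite
  obtain ⟨U, V, hU, hV, hU', hV', hUV, h⟩ := main_thm (K := K)
  refine ⟨⟨U, V, hU, hV, hU', hV', hUV, h⟩, fun hc => ?_⟩
  have hVc : V = Uᶜ := by
    ext x
    constructor
    · intro hx hxU
      exact Set.disjoint_left.1 hUV hxU hx
    · intro hx
      rcases (h ▸ Set.mem_univ x : x ∈ U ∪ V) with h1 | h1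
      · exact absurd h1 hx
      · exact h1
  have hclopen : IsClopen U := ⟨hU, by
    rw [← isClosed_compl_iff, ← hVc]
    exact hV⟩
  rcases isClopen_iff.1 hclopen with h1 | h1
  · exact hU'.ne_empty h1
  · rw [h1, Set.compl_univ] at hVc
    exact hV'.ne_empty hVc

end Pool.Agent.Results.MP_d51aa1_ag.Disconnected
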